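import Mathlib

/-!
# Quadratic units: the ring `ℤ[α]` and its norm
-/

set_option autoImplicit false

namespace Pool.Agent.Run7.h804.LV

/-- a real quadratic unit `α > 1` with trace `P` and norm `Q`, and its conjugate `β` -/
structure QU (α β : ℝ) (P Q : ℤ) : Prop where
  one : 1 < α
  sum : α + β = P
  prod : α * β = Q
  sgn : Q = 1 ∨ Q = -1

variable {α β : ℝ} {P Q : ℤ}

lemma QU.pos (h : QU α β P Q) : 0 < α := by linarith [h.one]

lemma QU.Qsq (h : QU α β P Q) : (Q : ℝ) * Q = 1 := by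
  rcases h.sgn with h1 | h1 <;> rw [h1] <;> norm_num

lemma QU.Qpow (h : QU α β P Q) (n : ℕ) : (Q : ℝ) ^ n = 1 ∨ (Q : ℝ) ^ n = -1 := by
  rcases h.sgn with h1 | h1
  · left; rw [h1]; simp
  · rw [h1]; push_cast; exact neg_one_pow_eq_or ℝ n

lemma QU.beta (h : QU α β P Q) : β = Q / α := by
  rw [eq_div_iff h.pos.ne', mul_comm]; exact h.prod

lemma QU.sq (h : QU α β P Q) : α ^ 2 = P * α - Q := by
  linear_combination α * h.sum - h.prod

lemma QU.absb (h : QU α β P Q) : |β| = 1 / α := by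
  rw [h.beta, abs_div, abs_of_pos h.pos]
  rcases h.sgn with h1 | h1 <;> rw [h1] <;> norm_num

lemma QU.absb_lt (h : QU α β P Q) : |β| < 1 := by
  rw [h.absb, div_lt_one h.pos]; exact h.one

lemma QU.cases (h : QU α β P Q) : (Q = 1 ∧ 3 ≤ P) ∨ (Q = -1 ∧ 1 ≤ P) := by
  have h0 := h.pos
  have h1 := h.one
  have h2 := h.sq
  rcases h.sgn with h3 | h3
  · left
    refine ⟨h3, ?_⟩
    rw [h3] at h2
    push_cast at h2
    have h4 : (2 : ℝ) < P := by
      by_contra hc
      push Not at hc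
      nlinarith [mul_pos (sub_pos.2 h1) (sub_pos.2 h1)]
    have : (2 : ℤ) < P := by exact_mod_cast h4
    omega
  · right
    refine ⟨h3, ?_⟩
    rw [h3] at h2
    push_cast at h2
    have h4 : (0 : ℝ) < P := by
      by_contra hc
      push Not at hc
      nlinarith
    have : (0 : ℤ) < P := by exact_mod_cast h4
    omega

/-- `α ^ 2 ≥ α + 1` -/
lemma QU.sq_ge (h : QU α β P Q) : α + 1 ≤ α ^ 2 := by
  have h0 := h.pos
  have h1 := h.one
  have h2 := h.sq
  rcases h.cases with ⟨h3, h4⟩ | ⟨h3, h4⟩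
  · have h5 : (3 : ℝ) ≤ P := by exact_mod_cast h4
    rw [h2, h3]; push_cast
    nlinarith
  · have h5 : (1 : ℝ) ≤ P := by exact_mod_cast h4
    rw [h2, h3]; push_cast
    nlinarith

lemma QU.ge (h : QU α β P Q) : 1.618 ≤ α := by
  have h1 := h.one
  have h2 := h.sq_ge
  by_contra hc
  push Not at hc
  nlinarith

lemma QU.sq_ge' (h : QU α β P Q) : 2.618 ≤ α ^ 2 := by
  have := h.ge; have := h.sq_ge
  linarith

/-- `P ^ 2 - 4 Q` is not a square -/
lemma QU.nonsquare (h : QU α β P Q) (D : ℤ) : D ^ 2 ≠ P ^ 2 - 4 * Q := by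
  intro hD
  have hD' : |D| ^ 2 = P ^ 2 - 4 * Q := by rw [sq_abs]; exact hD
  have h0 : 0 ≤ |D| := abs_nonneg D
  generalize |D| = E at hD' h0
  rcases h.cases with ⟨h3, h4⟩ | ⟨h3, h4⟩
  · rw [h3] at hD'
    have h5 : E < P := by nlinarith
    have h6 : P - 1 < E := by nlinarith
    omega
  · rw [h3] at hD'
    have h5 : P < E := by nlinarith
    rcases eq_or_lt_of_le h4 with h6 | h6
    · rw [← h6] at hD' h5
      have h7 : E < 3 := by nlinarith
      have h8 : E = 2 := by omega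
      rw [h8] at hD'
      norm_num at hD'
    · have h7 : E < P + 1 := by nlinarith
      omega

/-- pairs of conjugate elements of `ℤ[α]` -/
def Pr (α β t t' : ℝ) : Prop := ∃ u v : ℤ, t = u + v * α ∧ t' = u + v * β

lemma Pr.int (n : ℤ) : Pr α β n n := ⟨n, 0, by simp, by simp⟩

lemma Pr.nat (n : ℕ) : Pr α β n n := ⟨n, 0, by simp, by simp⟩

lemma Pr.one : Pr α β 1 1 := ⟨1, 0, by simp, by simp⟩

lemma Pr.add {s s' t t' : ℝ} (h1 : Pr α β s s') (h2 : Pr α β t t') :
    Pr α β (s + t) (s' + t') := by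
  obtain ⟨u, v, rfl, rfl⟩ := h1
  obtain ⟨u', v', rfl, rfl⟩ := h2
  exact ⟨u + u', v + v', by push_cast; ring, by push_cast; ring⟩

lemma Pr.sub {s s' t t' : ℝ} (h1 : Pr α β s s') (h2 : Pr α β t t') :
    Pr α β (s - t) (s' - t') := by
  obtain ⟨u, v, rfl, rfl⟩ := h1
  obtain ⟨u', v', rfl, rfl⟩ := h2
  exact ⟨u - u', v - v', by push_cast; ring, by push_cast; ring⟩

lemma Pr.mul (h : QU α β P Q) {s s' t t' : ℝ} (h1 : Pr α β s s') (h2 : Pr α β t t') :
    Pr α β (s * t) (s' * t') := by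
  obtain ⟨u, v, rfl, rfl⟩ := h1
  obtain ⟨u', v', rfl, rfl⟩ := h2
  have ha := h.sq
  have hb : β ^ 2 = P * β - Q := by
    linear_combination β * h.sum - h.prod
  refine ⟨u * u' - v * v' * Q, u * v' + v * u' + v * v' * P, ?_, ?_⟩
  · push_cast
    linear_combination (v : ℝ) * v' * ha
  · push_cast
    linear_combination (v : ℝ) * v' * hb

lemma Pr.pow (h : QU α β P Q) {s s' : ℝ} (h1 : Pr α β s s') (n : ℕ) :
    Pr α β (s ^ n) (s' ^ n) := by
  induction n with
  | zero => simpa using Pr.one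
  | succ n ih => rw [pow_succ, pow_succ]; exact ih.mul h h1

lemma Pr.gen : Pr α β α β := ⟨0, 1, by simp, by simp⟩

lemma Pr.gen' (h : QU α β P Q) : Pr α β β α := by
  refine ⟨P, -1, ?_, ?_⟩
  · have := h.sum; push_cast; linarith
  · have := h.sum; push_cast; linarith

/-- an element of norm of absolute value less than one is zero -/
lemma Pr.zero (h : QU α β P Q) {t t' : ℝ} (h1 : Pr α β t t') (h2 : |t| * |t'| < 1) :
    t = 0 ∧ t' = 0 := by
  obtain ⟨u, v, rfl, rfl⟩ := h1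
  have h3 : ((u : ℝ) + v * α) * (u + v * β) = ((u ^ 2 + u * v * P + v ^ 2 * Q : ℤ) : ℝ) := by
    push_cast
    have := h.sum; have := h.prod
    linear_combination (u : ℝ) * v * h.sum + (v : ℝ) ^ 2 * h.prod
  rw [← abs_mul, h3] at h2
  have h4 : |u ^ 2 + u * v * P + v ^ 2 * Q| < 1 := by exact_mod_cast h2
  have h5 : u ^ 2 + u * v * P + v ^ 2 * Q = 0 := Int.abs_lt_one_iff.1 h4
  have h6 : (2 * u + v * P) ^ 2 = v ^ 2 * (P ^ 2 - 4 * Q) := by linear_combination 4 * h5
  have hv : v = 0 := by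
    by_contra hv
    have h7 : v ∣ 2 * u + v * P := by
      rw [← Int.pow_dvd_pow_iff (n := 2) (by norm_num), h6]
      exact dvd_mul_right _ _
    obtain ⟨D, hD⟩ := h7
    rw [hD, mul_pow] at h6
    exact h.nonsquare D (mul_left_cancel₀ (pow_ne_zero 2 hv) h6)
  rw [hv] at h5
  have hu : u = 0 := by
    have : u ^ 2 = 0 := by linarith
    exact pow_eq_zero_iff (two_ne_zero) |>.1 this
  rw [hu, hv]
  simp

end Pool.Agent.Run7.h804.LV
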