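import Mathlib
import Pool.Agent.Run7.h804.LV.Ring

/-!
# The two largest terms have the same leading part
-/

set_option autoImplicit false

namespace Pool.Agent.Run7.h804.LV

variable {α β : ℝ} {P Q : ℤ}

lemma one_add_pow_est {d : ℝ} {n : ℕ} (h : (n : ℝ) * |d| ≤ 1) :
    0 ≤ (1 + d) ^ n - 1 - n * d ∧ (1 + d) ^ n - 1 - n * d ≤ ((n : ℝ) * |d|) ^ 2 := by
  rcases Nat.eq_zero_or_pos n with rfl | hn
  · simp
  have hn' : (1 : ℝ) ≤ n := by exact_mod_cast hn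
  have hd0 := abs_nonneg d
  have hd : |d| ≤ 1 := by nlinarith
  have hd1 := (abs_le.1 hd).1
  constructor
  · have := one_add_mul_le_pow (a := d) (by linarith) n
    linarith
  · have h1 : (1 + d) ^ n ≤ Real.exp (n * d) := by
      rw [Real.exp_nat_mul]
      apply pow_le_pow_left₀ (by linarith)
      have := Real.add_one_le_exp d
      linarith
    have h2 : |(n : ℝ) * d| ≤ 1 := by
      rw [abs_mul, abs_of_nonneg (by positivity : (0 : ℝ) ≤ n)]; exact h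
    have h3 := (abs_le.1 (Real.abs_exp_sub_one_sub_id_le h2)).2
    have h4 : ((n : ℝ) * |d|) ^ 2 = ((n : ℝ) * d) ^ 2 := by
      rw [mul_pow, mul_pow, sq_abs]
    rw [h4]
    linarith

/-- the quotient of the conjugates -/
lemma QU.abs_quot (h : QU α β P Q) (i : ℕ) : |(β / α) ^ i| = 1 / α ^ (2 * i) := by
  rw [abs_pow, abs_div, h.absb, abs_of_pos h.pos, div_div, ← pow_two, div_pow, one_pow, ← pow_mul]

lemma QU.quot_eq (h : QU α β P Q) (i : ℕ) : (β / α) ^ i = (Q : ℝ) ^ i / α ^ (2 * i) := by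
  rw [h.beta, div_div, ← pow_two, div_pow, ← pow_mul]

/-- a power of a term of the sequence -/
lemma term_eq (h : QU α β P Q) (i n : ℕ) :
    (α ^ i + β ^ i) ^ n = α ^ (i * n) * (1 + (β / α) ^ i) ^ n := by
  have h0 := h.pos.ne'
  rw [pow_mul, ← mul_pow, mul_add, mul_one, ← mul_pow, mul_div_cancel₀ β h0]

lemma alpha_pow_ge (h : QU α β P Q) {m : ℕ} (hm : 1 ≤ m) : 2.618 ≤ α ^ (2 * m) := by
  rw [pow_mul]
  exact h.sq_ge'.trans (le_self_pow₀ (by linarith [h.sq_ge', h.one]) (by omega))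

/-- **Case 1.** A number near `α ^ B` is not a difference
`± α ^ A ((1 + δ ^ s) ^ P₁ - (1 + δ ^ (s + m)) ^ P₂)` with `s P₁ = (s + m) P₂`. -/
theorem case1 (h : QU α β P Q) {s m P₁ P₂ A B : ℕ} {L g τ ε : ℝ} (hs : 1 ≤ s) (hm : 1 ≤ m)
    (hP2 : 2 ≤ P₂) (hPP : s * P₁ = (s + m) * P₂) (hL1 : (P₁ : ℝ) ≤ L) (hε0 : 0 < ε)
    (hL5 : 60 * L ^ 5 * ε ≤ 1) (hsε : 1 / α ^ (2 * s) ≤ ε) (hτ : τ = 1 ∨ τ = -1)
    (hgε : |g| ≤ 2 * L * ε)
    (heq : α ^ B * (1 + g) =
      τ * α ^ A * ((1 + (β / α) ^ s) ^ P₁ - (1 + (β / α) ^ (s + m)) ^ P₂)) : False := by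
  have hα0 := h.pos
  have hα1 := h.one
  -- the exponents
  have hP12 : P₂ + 1 ≤ P₁ := by
    by_contra hc
    push Not at hc
    have h1 : P₁ ≤ P₂ := by omega
    have h2 : s * P₁ ≤ s * P₂ := Nat.mul_le_mul_left s h1
    have h3 : 0 < m * P₂ := Nat.mul_pos (by omega) (by omega)
    rw [hPP, add_mul] at h2
    omega
  have hPm : P₁ ≤ (1 + m) * P₂ := by
    have h1 : s * P₁ ≤ s * ((1 + m) * P₂) := by
      rw [hPP, ← mul_assoc]
      apply Nat.mul_le_mul_right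
      nlinarith
    exact Nat.le_of_mul_le_mul_left h1 (by omega)
  have hP2' : (2 : ℝ) ≤ P₂ := by exact_mod_cast hP2
  have hP12' : (P₂ : ℝ) + 1 ≤ P₁ := by exact_mod_cast hP12
  have hPm' : (P₁ : ℝ) ≤ (1 + m) * P₂ := by exact_mod_cast hPm
  have hL3 : 3 ≤ L := by linarith
  have hm' : (1 : ℝ) ≤ m := by exact_mod_cast hm
  -- the small number
  set S : ℝ := α ^ (2 * s) with hSdef
  have hS0 : 0 < S := by positivity
  set η : ℝ := 1 / S with hη
  have hη0 : 0 < η := by positivity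
  have hSη : S * η = 1 := by rw [hη]; field_simp
  have hL0 : 0 < L := by linarith
  have hL4 : 60 * L ^ 4 * ε ≤ 1 / 3 := by
    have : 60 * L ^ 5 * ε = L * (60 * L ^ 4 * ε) := by ring
    rw [this] at hL5
    have h0 : 0 ≤ 60 * L ^ 4 * ε := by positivity
    nlinarith only [hL5, h0, hL3]
  have hL3' : 60 * L ^ 3 * ε ≤ 1 / 9 := by
    have : 60 * L ^ 4 * ε = L * (60 * L ^ 3 * ε) := by ring
    rw [this] at hL4
    have h0 : 0 ≤ 60 * L ^ 3 * ε := by positivity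
    nlinarith only [hL4, h0, hL3]
  have hL2 : 60 * L ^ 2 * ε ≤ 1 / 27 := by
    have : 60 * L ^ 3 * ε = L * (60 * L ^ 2 * ε) := by ring
    rw [this] at hL3'
    have h0 : 0 ≤ 60 * L ^ 2 * ε := by positivity
    nlinarith only [hL3', h0, hL3]
  have hL1' : 60 * L * ε ≤ 1 / 81 := by
    have : 60 * L ^ 2 * ε = L * (60 * L * ε) := by ring
    rw [this] at hL2
    have h0 : 0 ≤ 60 * L * ε := by positivity
    nlinarith only [hL2, h0, hL3]
  -- the two powers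
  have hd1 : |(β / α) ^ s| = η := by rw [h.abs_quot]
  have hd2 : |(β / α) ^ (s + m)| ≤ η := by
    rw [h.abs_quot, hη]
    apply one_div_le_one_div_of_le hS0
    exact pow_le_pow_right₀ hα1.le (by omega)
  have hn1 : (P₁ : ℝ) * |(β / α) ^ s| ≤ L * η := by
    rw [hd1]; exact mul_le_mul_of_nonneg_right hL1 hη0.le
  have hn2 : (P₂ : ℝ) * |(β / α) ^ (s + m)| ≤ L * η :=
    mul_le_mul (by linarith) hd2 (abs_nonneg _) hL0.le
  have hLε : L * η ≤ 1 := by
    have : L * η ≤ L * ε := mul_le_mul_of_nonneg_left hsε hL0.le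
    linarith only [hL1', this]
  obtain ⟨u1, u2⟩ := one_add_pow_est (hn1.trans hLε)
  obtain ⟨v1, v2⟩ := one_add_pow_est (hn2.trans hLε)
  have u3 : ((P₁ : ℝ) * |(β / α) ^ s|) ^ 2 ≤ (L * η) ^ 2 :=
    pow_le_pow_left₀ (by positivity) hn1 2
  have v3 : ((P₂ : ℝ) * |(β / α) ^ (s + m)|) ^ 2 ≤ (L * η) ^ 2 :=
    pow_le_pow_left₀ (by positivity) hn2 2
  set e₁ : ℝ := (1 + (β / α) ^ s) ^ P₁ - 1 - P₁ * (β / α) ^ s with he1
  set e₂ : ℝ := (1 + (β / α) ^ (s + m)) ^ P₂ - 1 - P₂ * (β / α) ^ (s + m) with he2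
  set D : ℝ := (β / α) ^ m with hD
  have hdm : (β / α) ^ (s + m) = (β / α) ^ s * D := by rw [pow_add]
  have hdiff : (1 + (β / α) ^ s) ^ P₁ - (1 + (β / α) ^ (s + m)) ^ P₂ =
      (β / α) ^ s * (P₁ - P₂ * D) + (e₁ - e₂) := by
    rw [he1, he2, hdm]; ring
  -- multiply by `α ^ (2 s)`
  have hSd : S * (β / α) ^ s = (Q : ℝ) ^ s := by
    rw [h.quot_eq, mul_div_cancel₀ _ hS0.ne']
  have hmain : α ^ (B + 2 * s) * (1 + g) =
      α ^ A * (τ * (Q : ℝ) ^ s * (P₁ - P₂ * D) + τ * (S * (e₁ - e₂))) := by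
    have : α ^ (B + 2 * s) * (1 + g) = S * (α ^ B * (1 + g)) := by
      rw [pow_add]; ring
    rw [this, heq, hdiff]
    calc S * (τ * α ^ A * ((β / α) ^ s * (P₁ - P₂ * D) + (e₁ - e₂)))
        = α ^ A * (τ * (S * (β / α) ^ s) * (P₁ - P₂ * D) + τ * (S * (e₁ - e₂))) := by ring
      _ = _ := by rw [hSd]
  have herr : |S * (e₁ - e₂)| ≤ L ^ 2 * ε := by
    have h1 : |e₁ - e₂| ≤ (L * η) ^ 2 := by
      rw [abs_le]
      constructor <;> linarith
    rw [abs_mul, abs_of_pos hS0]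
    calc S * |e₁ - e₂| ≤ S * (L * η) ^ 2 := mul_le_mul_of_nonneg_left h1 hS0.le
      _ = (S * η) * (L ^ 2 * η) := by ring
      _ = L ^ 2 * η := by rw [hSη, one_mul]
      _ ≤ L ^ 2 * ε := mul_le_mul_of_nonneg_left hsε (by positivity)
  -- `D`
  have hDabs : |D| ≤ 0.4 := by
    rw [hD, h.abs_quot]
    have := alpha_pow_ge h hm
    rw [div_le_iff₀ (by positivity)]
    linarith
  obtain ⟨D1, D2⟩ := abs_le.1 hDabs
  set U : ℝ := P₁ - P₂ * D with hU
  have hP20 : (0 : ℝ) ≤ P₂ := by linarith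
  have hPD1 : (P₂ : ℝ) * D ≤ P₂ * 0.4 := mul_le_mul_of_nonneg_left D2 hP20
  have hPD2 : (P₂ : ℝ) * (-0.4) ≤ P₂ * D := mul_le_mul_of_nonneg_left D1 hP20
  have hUlow : 2.2 ≤ U := by rw [hU]; linarith only [hPD1, hP12', hP2']
  have hUup : U ≤ 1.4 * L := by rw [hU]; linarith only [hPD2, hL1, hP12', hP2']
  have hgabs : |g| ≤ 0.001 := by linarith only [hgε, hL1']
  obtain ⟨g1, g2⟩ := abs_le.1 hgabs
  have herr' : L ^ 2 * ε ≤ 0.01 := by linarith only [hL2]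
  have hτQ : τ * (Q : ℝ) ^ s = 1 ∨ τ * (Q : ℝ) ^ s = -1 := by
    rcases hτ with h1 | h1 <;> rcases h.Qpow s with h2 | h2 <;> rw [h1, h2] <;> norm_num
  obtain ⟨E1, E2⟩ := abs_le.1 herr
  have hτE : |τ * (S * (e₁ - e₂))| ≤ L ^ 2 * ε := by
    rcases hτ with h1 | h1 <;> rw [h1]
    · rw [one_mul]; exact herr
    · rw [neg_one_mul, abs_neg]; exact herr
  set e : ℝ := τ * (S * (e₁ - e₂)) with he
  obtain ⟨T1, T2⟩ := abs_le.1 hτE
  have hA0 : 0 < α ^ A := by positivity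
  have hBs0 : 0 < α ^ (B + 2 * s) := by positivity
  have hsign : τ * (Q : ℝ) ^ s = 1 := by
    rcases hτQ with h1 | h1
    · exact h1
    · exfalso
      rw [h1] at hmain
      have h2 : 0 < α ^ (B + 2 * s) * (1 + g) := mul_pos hBs0 (by linarith)
      rw [hmain] at h2
      have h3 : -1 * U + e < 0 := by linarith
      have := mul_neg_of_pos_of_neg hA0 h3
      linarith
  rw [hsign, one_mul] at hmain
  -- the exponent `k`
  have hk : A < B + 2 * s := by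
    by_contra hc
    push Not at hc
    have h1 : α ^ (B + 2 * s) ≤ α ^ A := pow_le_pow_right₀ hα1.le hc
    have h2 : α ^ (B + 2 * s) * (1 + g) ≤ α ^ A * (1 + g) :=
      mul_le_mul_of_nonneg_right h1 (by linarith)
    rw [hmain] at h2
    have h3 := le_of_mul_le_mul_left h2 hA0
    linarith
  obtain ⟨k, hk'⟩ : ∃ k, B + 2 * s = A + k := ⟨B + 2 * s - A, by omega⟩
  have hk1 : 1 ≤ k := by omega
  rw [hk', pow_add, mul_assoc] at hmain
  have hkeq : α ^ k * (1 + g) = U + e := mul_left_cancel₀ hA0.ne' hmain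
  have hαk : α ^ k ≤ 2 * L := by
    have h0 : 0 < α ^ k := by positivity
    have h1 : α ^ k * (-0.001) ≤ α ^ k * g := mul_le_mul_of_nonneg_left g1 h0.le
    linarith only [hkeq, h1, hUup, T2, herr', hL3]
  have hαkU : |α ^ k - U| ≤ 5 * L ^ 2 * ε := by
    have h1 : α ^ k - U = e - α ^ k * g := by linear_combination hkeq
    have h2 : |α ^ k * g| ≤ 2 * L * (2 * L * ε) := by
      rw [abs_mul, abs_of_pos (by positivity : 0 < α ^ k)]
      exact mul_le_mul hαk hgε (abs_nonneg _) (by linarith)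
    rw [h1]
    calc |e - α ^ k * g| ≤ |e| + |α ^ k * g| := abs_sub _ _
      _ ≤ L ^ 2 * ε + 2 * L * (2 * L * ε) := add_le_add hτE h2
      _ = _ := by ring
  -- conjugation
  have hDβ : D = ((Q : ℝ) * β ^ 2) ^ m := by
    rw [hD]
    congr 1
    have h1 := h.Qsq
    have h2 := h.prod
    rw [div_eq_iff hα0.ne']
    linear_combination (-β) * h1 - (Q : ℝ) * β * h2
  have hPrD : Pr α β D (((Q : ℝ) * α ^ 2) ^ m) := by
    rw [hDβ]
    exact (((Pr.int Q).mul h ((Pr.gen' h).pow h 2)).pow h m)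
  have hPr1 : Pr α β (α ^ k - P₁ + P₂ * D) (β ^ k - P₁ + P₂ * ((Q : ℝ) * α ^ 2) ^ m) :=
    ((Pr.gen.pow h k).sub (Pr.nat P₁)).add ((Pr.nat P₂).mul h hPrD)
  have hPr2 : Pr α β (α ^ k - P₁) (β ^ k - P₁) := (Pr.gen.pow h k).sub (Pr.nat P₁)
  have hβk : |β ^ k| < 1 := by
    rw [abs_pow]
    exact pow_lt_one₀ (abs_nonneg _) h.absb_lt (by omega)
  obtain ⟨β1, β2⟩ := abs_lt.1 hβk
  set W : ℝ := α ^ (2 * m) with hW
  have hW1 : 1 ≤ W := one_le_pow₀ hα1.le
  have hQW : ((Q : ℝ) * α ^ 2) ^ m = (Q : ℝ) ^ m * W := by rw [mul_pow, ← pow_mul]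
  have hθ : |α ^ k - P₁ + P₂ * D| ≤ 5 * L ^ 2 * ε := by
    have : α ^ k - P₁ + P₂ * D = α ^ k - U := by rw [hU]; ring
    rw [this]; exact hαkU
  have hθ' : |β ^ k - P₁ + P₂ * ((Q : ℝ) * α ^ 2) ^ m| ≤ 2.5 * L * W := by
    rw [hQW]
    have h1 : |(Q : ℝ) ^ m * W| = W := by
      rw [abs_mul, abs_of_pos (by positivity : 0 < W)]
      rcases h.Qpow m with h2 | h2 <;> rw [h2] <;> norm_num
    have h2 : |(P₂ : ℝ) * ((Q : ℝ) ^ m * W)| ≤ L * W := by
      rw [abs_mul, h1, abs_of_nonneg (by positivity : (0 : ℝ) ≤ P₂)]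
      exact mul_le_mul_of_nonneg_right (by linarith) (by linarith)
    have h3 : |β ^ k - (P₁ : ℝ)| ≤ 1.4 * L := by
      rw [abs_le]; constructor <;> linarith
    calc |β ^ k - P₁ + P₂ * ((Q : ℝ) ^ m * W)| ≤ |β ^ k - (P₁ : ℝ)| + |(P₂ : ℝ) * ((Q : ℝ) ^ m * W)| :=
          abs_add_le _ _
      _ ≤ 1.4 * L + L * W := add_le_add h3 h2
      _ ≤ 2.5 * L * W := by linarith only [mul_le_mul_of_nonneg_left hW1 hL0.le, hL0]
  rcases lt_or_ge (12.5 * L ^ 3 * W * ε) 1 with hsm | hlg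
  · -- exact equality
    have hz := Pr.zero h hPr1 (by
      calc |α ^ k - P₁ + P₂ * D| * |β ^ k - P₁ + P₂ * ((Q : ℝ) * α ^ 2) ^ m|
          ≤ (5 * L ^ 2 * ε) * (2.5 * L * W) := mul_le_mul hθ hθ' (abs_nonneg _) (by positivity)
        _ = 12.5 * L ^ 3 * W * ε := by ring
        _ < 1 := hsm)
    have hz2 := hz.2
    rw [hQW] at hz2
    rcases h.Qpow m with h2 | h2
    · rw [h2, one_mul] at hz2
      have h3 : (P₂ : ℝ) * W < P₁ + 1 := by linarith
      have h4 : 1 + (m : ℝ) * 1.618 ≤ W := by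
        have h5 := one_add_mul_le_pow (a := α ^ 2 - 1) (by linarith [h.sq_ge']) m
        have h6 : (1 + (α ^ 2 - 1)) ^ m = W := by rw [hW, pow_mul]; congr 1; ring
        rw [h6] at h5
        have h7 : (m : ℝ) * 1.618 ≤ m * (α ^ 2 - 1) :=
          mul_le_mul_of_nonneg_left (by linarith [h.sq_ge']) (by linarith)
        linarith
      have h8 : (P₂ : ℝ) * (1 + (m : ℝ) * 1.618) ≤ P₂ * W :=
        mul_le_mul_of_nonneg_left h4 (by linarith)
      have h9 : (2 : ℝ) * 1 ≤ P₂ * m := mul_le_mul hP2' hm' (by norm_num) hP20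
      nlinarith only [h8, h3, hPm', h9]
    · rw [h2] at hz2
      have h3 : 0 ≤ (P₂ : ℝ) * W := mul_nonneg hP20 (by linarith)
      linarith only [hz2, h3, hP12', hP2', β2]
  · -- the second term is negligible
    have hDsm : |D| = 1 / W := by rw [hD, h.abs_quot]
    have h1 : 1 / W ≤ 12.5 * L ^ 3 * ε := by
      rw [div_le_iff₀ (by linarith)]
      linarith
    have h2 : |(P₂ : ℝ) * D| ≤ L * (12.5 * L ^ 3 * ε) := by
      rw [abs_mul, hDsm, abs_of_nonneg (by positivity : (0 : ℝ) ≤ P₂)]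
      exact mul_le_mul (by linarith) h1 (by positivity) (by linarith)
    have h3 : |α ^ k - (P₁ : ℝ)| ≤ 17.5 * L ^ 4 * ε := by
      have h4 : α ^ k - (P₁ : ℝ) = (α ^ k - U) - P₂ * D := by rw [hU]; ring
      rw [h4]
      calc |(α ^ k - U) - P₂ * D| ≤ |α ^ k - U| + |(P₂ : ℝ) * D| := abs_sub _ _
        _ ≤ 5 * L ^ 2 * ε + L * (12.5 * L ^ 3 * ε) := add_le_add hαkU h2
        _ ≤ 17.5 * L ^ 4 * ε := by
          have h5 : 0 ≤ L ^ 2 * ε := by positivity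
          have h6 : L ^ 2 * ε ≤ L ^ 4 * ε := by
            apply mul_le_mul_of_nonneg_right _ hε0.le
            exact pow_le_pow_right₀ (by linarith) (by norm_num)
          linarith only [h5, h6]
    have h7 : |β ^ k - (P₁ : ℝ)| ≤ 1.5 * L := by
      rw [abs_le]; constructor <;> linarith
    have hz := Pr.zero h hPr2 (by
      calc |α ^ k - (P₁ : ℝ)| * |β ^ k - (P₁ : ℝ)| ≤ (17.5 * L ^ 4 * ε) * (1.5 * L) :=
            mul_le_mul h3 h7 (abs_nonneg _) (by positivity)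
        _ = 26.25 * (L ^ 5 * ε) := by ring
        _ < 1 := by linarith only [hL5])
    have := hz.2
    linarith

end Pool.Agent.Run7.h804.LV
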