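import Mathlib
import Pool.Agent.Run7.h804.LV.Case1

/-!
# The golden ratio: `φ ^ 2 = φ + 1`, three terms of comparable size
-/

set_option autoImplicit false

namespace Pool.Agent.Run7.h804.LV

/-- relations between indices and exponents -/
lemma rel1 {a b p q : ℕ} (h : a * p = b * q + 1) (hp : 2 ≤ p) (hab : b < a) : p < q ∨ q = 0 := by
  by_contra hc
  push Not at hc
  obtain ⟨h1, h2⟩ := hc
  have h3 : (b + 1) * p ≤ a * p := Nat.mul_le_mul_right _ hab
  have h4 : b * q ≤ b * p := Nat.mul_le_mul_left _ h1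
  rw [h] at h3
  have : b * p + p ≤ b * q + 1 := by linarith
  omega

lemma est2 {L ε d : ℝ} {n : ℕ} (hn : (n : ℝ) ≤ L) (hd : |d| ≤ ε) (hL : L * ε ≤ 1) :
    0 ≤ (1 + d) ^ n - 1 - n * d ∧ (1 + d) ^ n - 1 - n * d ≤ (L * ε) ^ 2 := by
  have hn0 : (0 : ℝ) ≤ n := by positivity
  have h1 : (n : ℝ) * |d| ≤ L * ε := mul_le_mul hn hd (abs_nonneg _) (hn0.trans hn)
  obtain ⟨h2, h3⟩ := one_add_pow_est (h1.trans hL)
  exact ⟨h2, h3.trans (pow_le_pow_left₀ (by positivity) h1 2)⟩

/-- **Case 2**: `cr = ap + 1 = bq + 2` for the golden ratio -/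
theorem case2 {α : ℝ} (hα1 : 1 < α) (hα : α ^ 2 = α + 1) {a b c p q r s : ℕ} {L δ : ℝ}
    (hδ : δ = -1 / α ^ 2) (hp2 : 2 ≤ p) (hq2 : 2 ≤ q) (hr2 : 2 ≤ r) (hp : (p : ℝ) ≤ L)
    (hq : (q : ℝ) ≤ L) (hr : (r : ℝ) ≤ L) (hsa : s ≤ a) (hsb : s ≤ b) (hsc : s ≤ c)
    (hs : s = a ∨ s = b ∨ s = c) (hS : 60 * L ^ 5 ≤ α ^ (2 * s)) (hab : a * p = b * q + 1)
    (hcb : c * r = b * q + 2)
    (heq : α ^ 2 * (1 + δ ^ c) ^ r = α * (1 + δ ^ a) ^ p + (1 + δ ^ b) ^ q) : False := by
  have hα0 : 0 < α := by linarith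
  have hlo : 1.618 < α := by
    by_contra hc; push Not at hc; nlinarith
  have hhi : α < 1.6181 := by
    by_contra hc; push Not at hc; nlinarith
  have hp2' : (2 : ℝ) ≤ p := by exact_mod_cast hp2
  have hq2' : (2 : ℝ) ≤ q := by exact_mod_cast hq2
  have hr2' : (2 : ℝ) ≤ r := by exact_mod_cast hr2
  have hL2 : 2 ≤ L := by linarith
  set S : ℝ := α ^ (2 * s) with hSdef
  have hS0 : 0 < S := by positivity
  -- `s ≥ 3`
  have hs3 : 3 ≤ s := by
    by_contra hc
    push Not at hc
    have h1 : α ^ (2 * s) ≤ α ^ 4 := pow_le_pow_right₀ hα1.le (by omega)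
    have h2 : α ^ 4 ≤ 1.6181 ^ 4 := pow_le_pow_left₀ hα0.le hhi.le 4
    have h3 : (2 : ℝ) ^ 5 ≤ L ^ 5 := pow_le_pow_left₀ (by norm_num) hL2 5
    rw [hSdef] at hS
    norm_num at h2 h3
    linarith
  set ε : ℝ := 1 / S with hε
  have hε0 : 0 < ε := by positivity
  have hSε : S * ε = 1 := by rw [hε]; field_simp
  have hL0 : 0 < L := by linarith
  have hL5 : 60 * L ^ 5 * ε ≤ 1 := by
    rw [← hSε]; exact mul_le_mul_of_nonneg_right hS hε0.le
  have hL2ε : L ^ 2 * ε ≤ 0.01 := by
    have h1 : (2 : ℝ) ^ 3 ≤ L ^ 3 := pow_le_pow_left₀ (by norm_num) hL2 3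
    have h2 : (2 : ℝ) ^ 3 * (L ^ 2 * ε) ≤ L ^ 3 * (L ^ 2 * ε) :=
      mul_le_mul_of_nonneg_right h1 (by positivity)
    have h3 : L ^ 3 * (L ^ 2 * ε) = L ^ 5 * ε := by ring
    rw [h3] at h2
    linarith only [h2, hL5]
  have hLε : L * ε ≤ 1 := by
    have h1 : L * ε ≤ L ^ 2 * ε := by
      apply mul_le_mul_of_nonneg_right _ hε0.le
      exact le_self_pow₀ (by linarith) (by norm_num)
    linarith only [h1, hL2ε]
  -- the powers of `δ`
  have hδpow : ∀ i : ℕ, δ ^ i = (-1) ^ i / α ^ (2 * i) := by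
    intro i; rw [hδ, div_pow, ← pow_mul]
  have hδabs : ∀ i : ℕ, s ≤ i → |δ ^ i| ≤ ε := by
    intro i hi
    rw [hδpow, abs_div, abs_pow, abs_neg, abs_one, one_pow,
      abs_of_pos (by positivity : 0 < α ^ (2 * i)), hε]
    exact one_div_le_one_div_of_le hS0 (pow_le_pow_right₀ hα1.le (by omega))
  obtain ⟨a1, a2⟩ := est2 hp (hδabs a hsa) hLε
  obtain ⟨b1, b2⟩ := est2 hq (hδabs b hsb) hLε
  obtain ⟨c1, c2⟩ := est2 hr (hδabs c hsc) hLε
  set ea : ℝ := (1 + δ ^ a) ^ p - 1 - p * δ ^ a with hea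
  set eb : ℝ := (1 + δ ^ b) ^ q - 1 - q * δ ^ b with heb
  set ec : ℝ := (1 + δ ^ c) ^ r - 1 - r * δ ^ c with hec
  have hF0 : α ^ 2 * r * δ ^ c - α * p * δ ^ a - q * δ ^ b = α * ea + eb - α ^ 2 * ec := by
    rw [hea, heb, hec]
    linear_combination heq - hα
  have hα2 : α ^ 2 ≤ 2.6181 := by linarith
  have hF0abs : |α ^ 2 * r * δ ^ c - α * p * δ ^ a - q * δ ^ b| ≤ 2.6181 * (L * ε) ^ 2 := by
    rw [hF0]
    have h1 : α * ea ≤ α * (L * ε) ^ 2 := mul_le_mul_of_nonneg_left a2 hα0.le
    have h2 : α ^ 2 * ec ≤ α ^ 2 * (L * ε) ^ 2 := mul_le_mul_of_nonneg_left c2 (by positivity)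
    have h3 : 0 ≤ α * ea := mul_nonneg hα0.le a1
    have h4 : 0 ≤ α ^ 2 * ec := mul_nonneg (by positivity) c1
    have h5 : α ^ 2 * (L * ε) ^ 2 ≤ 2.6181 * (L * ε) ^ 2 :=
      mul_le_mul_of_nonneg_right hα2 (by positivity)
    have h6 : α * (L * ε) ^ 2 ≤ 1.6181 * (L * ε) ^ 2 :=
      mul_le_mul_of_nonneg_right hhi.le (by positivity)
    rw [abs_le]
    constructor <;> linarith only [h1, h2, h3, h4, h5, h6, b1, b2]
  -- the leading terms
  obtain ⟨i, hi⟩ : ∃ i, c = s + i := ⟨c - s, by omega⟩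
  obtain ⟨j, hj⟩ : ∃ j, a = s + j := ⟨a - s, by omega⟩
  obtain ⟨l, hl⟩ : ∃ l, b = s + l := ⟨b - s, by omega⟩
  set u : ℝ := 1 / α ^ 2 with hu
  have hα2pos : (0 : ℝ) < α ^ 2 := by positivity
  have hu' : u = 2 - α := by
    rw [hu, div_eq_iff hα2pos.ne', hα]
    linear_combination hα
  have hu0 : 0 < u := by positivity
  have hu1 : u < 0.382 := by linarith
  have hu2 : 0.3819 < u := by linarith
  have hSδ : ∀ (n k : ℕ), n = s + k → S * δ ^ n = (-1) ^ n * u ^ k := by
    intro n k hn
    rw [hδpow, hn, hSdef, hu, one_div, inv_pow, ← pow_mul, mul_add, pow_add α]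
    field_simp
  have hF : |(-1) ^ c * (α ^ 2 * r * u ^ i) - (-1) ^ a * (α * p * u ^ j) - (-1) ^ b * (q * u ^ l)|
      ≤ 0.1 := by
    have h1 : (-1) ^ c * (α ^ 2 * r * u ^ i) - (-1) ^ a * (α * p * u ^ j) - (-1) ^ b * (q * u ^ l)
        = S * (α ^ 2 * r * δ ^ c - α * p * δ ^ a - q * δ ^ b) := by
      have e1 := hSδ c i hi
      have e2 := hSδ a j hj
      have e3 := hSδ b l hl
      linear_combination (-(α ^ 2 * r)) * e1 + (α * p) * e2 + (q : ℝ) * e3
    rw [h1, abs_mul, abs_of_pos hS0]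
    calc S * |α ^ 2 * r * δ ^ c - α * p * δ ^ a - q * δ ^ b| ≤ S * (2.6181 * (L * ε) ^ 2) :=
          mul_le_mul_of_nonneg_left hF0abs hS0.le
      _ = 2.6181 * ((S * ε) * (L ^ 2 * ε)) := by ring
      _ = 2.6181 * (L ^ 2 * ε) := by rw [hSε, one_mul]
      _ ≤ 0.1 := by linarith only [hL2ε]
  -- the indices are different
  have hac : a ≠ c := by
    intro h
    have h1 : c * r = c * p + 1 := by rw [← h, hab, h, hcb]
    have h2 : c ∣ 1 := by
      have := (Nat.dvd_add_right (dvd_mul_right c p)).1 (h1 ▸ dvd_mul_right c r)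
      exact this
    have := Nat.le_of_dvd one_pos h2
    omega
  have hbc : b ≠ c := by
    intro h
    rw [h] at hcb
    have h2 : c ∣ 2 := (Nat.dvd_add_right (dvd_mul_right c q)).1 (hcb ▸ dvd_mul_right c r)
    have := Nat.le_of_dvd two_pos h2
    omega
  have hcap : c * r = a * p + 1 := by omega
  -- powers of `u`
  have hupow : ∀ {k k' : ℕ}, k' ≤ k → u ^ k ≤ u ^ k' := fun h =>
    pow_le_pow_of_le_one hu0.le (by linarith) h
  have hup0 : ∀ k : ℕ, 0 < u ^ k := fun k => by positivity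
  have hαu : α ^ 2 * u = 1 := by rw [hu]; field_simp
  set tc : ℝ := α ^ 2 * r * u ^ i with htc
  set ta : ℝ := α * p * u ^ j with hta
  set tb : ℝ := q * u ^ l with htb
  have htc0 : 0 < tc := by positivity
  have hta0 : 0 < ta := by positivity
  have htb0 : 0 < tb := by positivity
  obtain ⟨F1, F2⟩ := abs_le.1 hF
  have hr0 : (0 : ℝ) < r := by linarith
  have hq0 : (0 : ℝ) < q := by linarith
  have hp0 : (0 : ℝ) < p := by linarith
  rcases Nat.eq_zero_or_pos i with hi0 | hi0
  · -- `s = c`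
    have hj0 : 1 ≤ j := by
      rcases Nat.eq_zero_or_pos j with h | h
      · exfalso; exact hac (by omega)
      · exact h
    have hl0 : 1 ≤ l := by
      rcases Nat.eq_zero_or_pos l with h | h
      · exfalso; exact hbc (by omega)
      · exact h
    have hpr : p < r := by
      by_contra hcon
      push Not at hcon
      have h1 : (c + 1) * p ≤ a * p := Nat.mul_le_mul_right _ (by omega)
      have h2 : c * r ≤ c * p := Nat.mul_le_mul_left _ hcon
      have h3 : (c + 1) * p = c * p + p := by ring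
      omega
    have hqr : q < r := by
      by_contra hcon
      push Not at hcon
      have h1 : (c + 1) * q ≤ b * q := Nat.mul_le_mul_right _ (by omega)
      have h2 : c * r ≤ c * q := Nat.mul_le_mul_left _ hcon
      have h3 : (c + 1) * q = c * q + q := by ring
      omega
    have hpr' : (p : ℝ) ≤ r := by exact_mod_cast hpr.le
    have hqr' : (q : ℝ) ≤ r := by exact_mod_cast hqr.le
    have t1 : tc = α ^ 2 * r := by rw [htc, hi0]; ring
    have t2 : ta ≤ 1.6181 * r * 0.382 := by
      rw [hta]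
      have h1 : u ^ j ≤ 0.382 := (hupow hj0).trans (by rw [pow_one]; exact hu1.le)
      exact mul_le_mul (mul_le_mul hhi.le hpr' hp0.le (by norm_num)) h1 (hup0 j).le
        (by positivity)
    have t3 : tb ≤ r * 0.382 := by
      rw [htb]
      have h1 : u ^ l ≤ 0.382 := (hupow hl0).trans (by rw [pow_one]; exact hu1.le)
      exact mul_le_mul hqr' h1 (hup0 l).le hr0.le
    have t4 : 2.618 * (r : ℝ) ≤ α ^ 2 * r := mul_le_mul_of_nonneg_right (by linarith) hr0.le
    rcases neg_one_pow_eq_or ℝ c with h1 | h1 <;> rcases neg_one_pow_eq_or ℝ a with h2 | h2 <;>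
      rcases neg_one_pow_eq_or ℝ b with h3 | h3 <;> rw [h1, h2, h3] at F1 F2 <;>
      linarith only [F1, F2, t1, t2, t3, t4, hr2', hta0, htb0]
  rcases Nat.eq_zero_or_pos j with hj0 | hj0
  · -- `s = a`
    have hl0 : 1 ≤ l := by
      rcases Nat.eq_zero_or_pos l with h | h
      · exfalso
        have hab' : a = b := by omega
        rw [hab'] at hab
        have h2 : b ∣ 1 := (Nat.dvd_add_right (dvd_mul_right b q)).1 (hab ▸ dvd_mul_right b p)
        have := Nat.le_of_dvd one_pos h2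
        omega
      · exact h
    have hrp : r < p := by
      by_contra hcon
      push Not at hcon
      have h1 : (a + 1) * r ≤ c * r := Nat.mul_le_mul_right _ (by omega)
      have h2 : a * p ≤ a * r := Nat.mul_le_mul_left _ hcon
      have h3 : (a + 1) * r = a * r + r := by ring
      omega
    have hqp : q < p := by
      by_contra hcon
      push Not at hcon
      have h1 : (a + 1) * q ≤ b * q := Nat.mul_le_mul_right _ (by omega)
      have h2 : a * p ≤ a * q := Nat.mul_le_mul_left _ hcon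
      have h3 : (a + 1) * q = a * q + q := by ring
      omega
    have hrp' : (r : ℝ) ≤ p := by exact_mod_cast hrp.le
    have hqp' : (q : ℝ) ≤ p := by exact_mod_cast hqp.le
    have t1 : 1.618 * p ≤ ta := by
      rw [hta, hj0, pow_zero, mul_one]
      exact mul_le_mul_of_nonneg_right hlo.le hp0.le
    have tcb : tc + tb ≤ 1.15 * p := by
      rcases Nat.lt_or_ge i 2 with hi2 | hi2
      · have hi1 : i = 1 := by omega
        have hl2 : 2 ≤ l := by
          rcases Nat.lt_or_ge l 2 with h | h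
          · exfalso; exact hbc (by omega)
          · exact h
        have t2 : tc = r := by rw [htc, hi1, pow_one, mul_right_comm, hαu, one_mul]
        have t3 : tb ≤ p * 0.146 := by
          rw [htb]
          have h1 : u ^ l ≤ 0.146 := (hupow hl2).trans (by nlinarith only [hu1, hu0])
          exact mul_le_mul hqp' h1 (hup0 l).le hp0.le
        linarith only [t2, t3, hrp', hp0]
      · have t2 : tc ≤ p * 0.382 := by
          have h1 : u ^ i ≤ u ^ 2 := hupow hi2
          calc tc = (α ^ 2 * r) * u ^ i := by rw [htc]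
            _ ≤ (α ^ 2 * r) * u ^ 2 := mul_le_mul_of_nonneg_left h1 (by positivity)
            _ = r * u * (α ^ 2 * u) := by ring
            _ = r * u := by rw [hαu, mul_one]
            _ ≤ p * 0.382 := mul_le_mul hrp' hu1.le hu0.le hp0.le
        have t3 : tb ≤ p * 0.382 := by
          rw [htb]
          have h1 : u ^ l ≤ 0.382 := (hupow hl0).trans (by rw [pow_one]; exact hu1.le)
          exact mul_le_mul hqp' h1 (hup0 l).le hp0.le
        linarith only [t2, t3, hp0]
    rcases neg_one_pow_eq_or ℝ c with h1 | h1 <;> rcases neg_one_pow_eq_or ℝ a with h2 | h2 <;>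
      rcases neg_one_pow_eq_or ℝ b with h3 | h3 <;> rw [h1, h2, h3] at F1 F2 <;>
      linarith only [F1, F2, t1, tcb, hp2', htc0, htb0]
  · -- `s = b`
    have hsb' : l = 0 := by omega
    have hij : i ≠ j := fun h => hac (by omega)
    have hrq : r ≤ q := by
      by_contra hcon
      push Not at hcon
      have h1 : (b + 1) * r ≤ c * r := Nat.mul_le_mul_right _ (by omega)
      have h2 : (b + 1) * (q + 1) ≤ (b + 1) * r := Nat.mul_le_mul_left _ hcon
      have h3 : (b + 1) * (q + 1) = b * q + b + q + 1 := by ring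
      omega
    have hpq : p < q := by
      rcases rel1 hab hp2 (by omega) with h | h
      · exact h
      · omega
    have hrq' : (r : ℝ) ≤ q := by exact_mod_cast hrq
    have hpq' : (p : ℝ) ≤ q := by exact_mod_cast hpq.le
    have hpq1 : (p : ℝ) + 1 ≤ q := by exact_mod_cast hpq
    have t1 : tb = q := by rw [htb, hsb']; ring
    rcases (show i = 1 ∨ i = 2 ∨ 3 ≤ i by omega) with hi1 | hi1 | hi1
    · -- `c = b + 1`
      have hj2 : 2 ≤ j := by omega
      have t2 : tc = r := by rw [htc, hi1, pow_one, mul_right_comm, hαu, one_mul]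
      have t3 : ta ≤ 1.6181 * q * 0.146 := by
        rw [hta]
        have h1 : u ^ j ≤ 0.146 := (hupow hj2).trans (by nlinarith only [hu1, hu0])
        exact mul_le_mul (mul_le_mul hhi.le hpq' hp0.le (by norm_num)) h1 (hup0 j).le
          (by positivity)
      have hcb' : (-1 : ℝ) ^ c = -(-1) ^ b := by
        rw [show c = b + 1 by omega, pow_succ]; ring
      rcases neg_one_pow_eq_or ℝ a with h2 | h2 <;>
        rcases neg_one_pow_eq_or ℝ b with h3 | h3 <;> rw [hcb', h2, h3] at F1 F2 <;>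
        linarith only [F1, F2, t1, t2, t3, hr2', hq2', hta0]
    · rcases (show j = 1 ∨ 3 ≤ j by omega) with hj1 | hj1
      · have hcb' : (-1 : ℝ) ^ c = (-1) ^ b := by
          rw [show c = b + 2 by omega, pow_add]; norm_num
        have hab' : (-1 : ℝ) ^ a = -(-1) ^ b := by
          rw [show a = b + 1 by omega, pow_succ]; ring
        have t2 : tc = r * u := by
          rw [htc, hi1]
          calc α ^ 2 * r * u ^ 2 = r * u * (α ^ 2 * u) := by ring
            _ = r * u := by rw [hαu, mul_one]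
        have t3 : ta = p * (1 - u) := by
          rw [hta, hj1, pow_one]
          have : α * u = 1 - u := by
            rw [hu']; linear_combination (-1) * hα
          linear_combination (p : ℝ) * this
        have t4 : r * u ≤ q * u := mul_le_mul_of_nonneg_right hrq' hu0.le
        have t5 : (p : ℝ) * (1 - u) ≤ (q - 1) * (1 - u) :=
          mul_le_mul_of_nonneg_right (by linarith) (by linarith)
        rcases neg_one_pow_eq_or ℝ b with h3 | h3 <;> rw [hcb', hab', h3] at F1 F2 <;>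
          nlinarith only [F1, F2, t1, t2, t3, t4, t5, hu1]
      · have t2 : tc ≤ q * 0.382 := by
          calc tc = r * u * (α ^ 2 * u) := by rw [htc, hi1]; ring
            _ = r * u := by rw [hαu, mul_one]
            _ ≤ q * 0.382 := mul_le_mul hrq' hu1.le hu0.le hq0.le
        have t3 : ta ≤ 1.6181 * q * 0.146 := by
          rw [hta]
          have h1 : u ^ j ≤ 0.146 :=
            (hupow (by omega : 2 ≤ j)).trans (by nlinarith only [hu1, hu0])
          exact mul_le_mul (mul_le_mul hhi.le hpq' hp0.le (by norm_num)) h1 (hup0 j).le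
            (by positivity)
        rcases neg_one_pow_eq_or ℝ c with h1 | h1 <;> rcases neg_one_pow_eq_or ℝ a with h2 | h2 <;>
          rcases neg_one_pow_eq_or ℝ b with h3 | h3 <;> rw [h1, h2, h3] at F1 F2 <;>
          linarith only [F1, F2, t1, t2, t3, hq2', htc0, hta0]
    · have t2 : tc ≤ q * 0.146 := by
        have h1 : u ^ i ≤ u ^ 3 := hupow hi1
        have h2 : u ^ 2 ≤ 0.146 := by nlinarith only [hu1, hu0]
        calc tc = (α ^ 2 * r) * u ^ i := by rw [htc]
          _ ≤ (α ^ 2 * r) * u ^ 3 := mul_le_mul_of_nonneg_left h1 (by positivity)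
          _ = r * u ^ 2 * (α ^ 2 * u) := by ring
          _ = r * u ^ 2 := by rw [hαu, mul_one]
          _ ≤ q * 0.146 := mul_le_mul hrq' h2 (by positivity) hq0.le
      have t3 : ta ≤ 0.6182 * q := by
        rw [hta]
        have h1 : u ^ j ≤ 0.382 := (hupow hj0).trans (by rw [pow_one]; exact hu1.le)
        calc α * p * u ^ j ≤ 1.6181 * q * 0.382 :=
              mul_le_mul (mul_le_mul hhi.le hpq' hp0.le (by norm_num)) h1 (hup0 j).le
                (by positivity)
          _ ≤ 0.6182 * q := by linarith only [hq0]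
      rcases neg_one_pow_eq_or ℝ c with h1 | h1 <;> rcases neg_one_pow_eq_or ℝ a with h2 | h2 <;>
        rcases neg_one_pow_eq_or ℝ b with h3 | h3 <;> rw [h1, h2, h3] at F1 F2 <;>
        linarith only [F1, F2, t1, t2, t3, hq2', htc0, hta0]

end Pool.Agent.Run7.h804.LV
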