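import Mathlib
import Pool.Agent.Run7.h804.LV.Case2

/-!
# No solutions with small exponents whose bases are traces of powers of one quadratic unit
-/

set_option autoImplicit false

namespace Pool.Agent.Run7.h804.LV

variable {α β : ℝ} {P Q : ℤ}

/-- the relative error of a power of a term -/
lemma rel_err (h : QU α β P Q) {i n s : ℕ} {L : ℝ} (hn : (n : ℝ) ≤ L) (hsi : s ≤ i)
    (hL : L * (1 / α ^ (2 * s)) ≤ 1) :
    |(1 + (β / α) ^ i) ^ n - 1| ≤ 2 * L * (1 / α ^ (2 * s)) := by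
  have hL0 : 0 ≤ L := le_trans (by positivity) hn
  have hd : |(β / α) ^ i| ≤ 1 / α ^ (2 * s) := by
    rw [h.abs_quot]
    exact one_div_le_one_div_of_le (by have := h.pos; positivity)
      (pow_le_pow_right₀ h.one.le (by omega))
  obtain ⟨h1, h2⟩ := est2 hn hd hL
  have h3 : |(n : ℝ) * (β / α) ^ i| ≤ L * (1 / α ^ (2 * s)) := by
    rw [abs_mul, abs_of_nonneg (by positivity : (0 : ℝ) ≤ n)]
    exact mul_le_mul hn hd (abs_nonneg _) hL0
  obtain ⟨h4, h5⟩ := abs_le.1 h3
  have h6 : (L * (1 / α ^ (2 * s))) ^ 2 ≤ L * (1 / α ^ (2 * s)) := by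
    have h7 : 0 ≤ L * (1 / α ^ (2 * s)) := by have := h.pos; positivity
    nlinarith only [hL, h7]
  rw [abs_le]
  constructor <;> linarith only [h1, h2, h4, h5, h6]

theorem core (h : QU α β P Q) {a b c p q r s : ℕ} {L : ℝ} (hp2 : 2 ≤ p) (hq2 : 2 ≤ q)
    (hr2 : 2 ≤ r) (hp : (p : ℝ) ≤ L) (hq : (q : ℝ) ≤ L) (hr : (r : ℝ) ≤ L) (hsa : s ≤ a)
    (hsb : s ≤ b) (hsc : s ≤ c) (hs : s = a ∨ s = b ∨ s = c) (hS : 60 * L ^ 5 ≤ α ^ (2 * s))
    (heq : (α ^ a + β ^ a) ^ p + (α ^ b + β ^ b) ^ q = (α ^ c + β ^ c) ^ r)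
    (hxy : (α ^ b + β ^ b) ^ q ≤ (α ^ a + β ^ a) ^ p) : False := by
  have hα0 := h.pos
  have hα1 := h.one
  have hp2' : (2 : ℝ) ≤ p := by exact_mod_cast hp2
  have hL2 : 2 ≤ L := by linarith
  have hL0 : 0 < L := by linarith
  have hS0 : 0 < α ^ (2 * s) := by positivity
  obtain ⟨ε, hε⟩ : ∃ ε, ε = 1 / α ^ (2 * s) := ⟨_, rfl⟩
  have hε0 : 0 < ε := by rw [hε]; positivity
  have hSε : α ^ (2 * s) * ε = 1 := by rw [hε]; field_simp
  have hL5 : 60 * L ^ 5 * ε ≤ 1 := by
    rw [← hSε]; exact mul_le_mul_of_nonneg_right hS hε0.le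
  have hLε960 : 960 * (L * ε) ≤ 1 := by
    have h1 : (2 : ℝ) ^ 4 ≤ L ^ 4 := pow_le_pow_left₀ (by norm_num) hL2 4
    have h2 : (2 : ℝ) ^ 4 * (L * ε) ≤ L ^ 4 * (L * ε) :=
      mul_le_mul_of_nonneg_right h1 (by positivity)
    have h3 : L ^ 4 * (L * ε) = L ^ 5 * ε := by ring
    rw [h3] at h2
    linarith only [h2, hL5]
  have hLε : L * ε ≤ 1 := by
    have : 0 < L * ε := by positivity
    linarith only [this, hLε960]
  have hs1 : 1 ≤ s := by
    by_contra hc
    have : s = 0 := by omega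
    rw [this] at hS
    have h1 : (2 : ℝ) ^ 5 ≤ L ^ 5 := pow_le_pow_left₀ (by norm_num) hL2 5
    norm_num at hS h1
    linarith only [hS, h1]
  have gx := rel_err h (s := s) hp hsa (by rw [← hε]; exact hLε)
  have gy := rel_err h (s := s) hq hsb (by rw [← hε]; exact hLε)
  have gz := rel_err h (s := s) hr hsc (by rw [← hε]; exact hLε)
  rw [← hε] at gx gy gz
  have hG : 2 * L * ε ≤ 0.0021 := by linarith only [hLε960]
  rw [term_eq h, term_eq h, term_eq h] at heq
  rw [term_eq h, term_eq h] at hxy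
  obtain ⟨x, hx⟩ : ∃ x, x = (1 + (β / α) ^ a) ^ p - 1 := ⟨_, rfl⟩
  obtain ⟨y, hy⟩ : ∃ y, y = (1 + (β / α) ^ b) ^ q - 1 := ⟨_, rfl⟩
  obtain ⟨z, hz⟩ : ∃ z, z = (1 + (β / α) ^ c) ^ r - 1 := ⟨_, rfl⟩
  rw [← hx] at gx
  rw [← hy] at gy
  rw [← hz] at gz
  have hx' : (1 + (β / α) ^ a) ^ p = 1 + x := by rw [hx]; ring
  have hy' : (1 + (β / α) ^ b) ^ q = 1 + y := by rw [hy]; ring
  have hz' : (1 + (β / α) ^ c) ^ r = 1 + z := by rw [hz]; ring
  rw [hx', hy', hz'] at heq
  rw [hx', hy'] at hxy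
  obtain ⟨x1, x2⟩ := abs_le.1 (gx.trans hG)
  obtain ⟨y1, y2⟩ := abs_le.1 (gy.trans hG)
  obtain ⟨z1, z2⟩ := abs_le.1 (gz.trans hG)
  obtain ⟨A, hA⟩ : ∃ A, A = a * p := ⟨_, rfl⟩
  obtain ⟨B, hB⟩ : ∃ B, B = b * q := ⟨_, rfl⟩
  obtain ⟨C, hC⟩ : ∃ C, C = c * r := ⟨_, rfl⟩
  rw [← hA, ← hB, ← hC] at heq
  rw [← hA, ← hB] at hxy
  have hA0 : 0 < α ^ A := by positivity
  have hB0 : 0 < α ^ B := by positivity
  have hC0 : 0 < α ^ C := by positivity
  have hge := h.ge
  -- `A ≤ C`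
  have hAC : A ≤ C := by
    by_contra hc
    push Not at hc
    have h1 : α ^ C * α ≤ α ^ A := by
      rw [← pow_succ]; exact pow_le_pow_right₀ hα1.le hc
    have h2 : α ^ C * 1.618 ≤ α ^ C * α := mul_le_mul_of_nonneg_left hge hC0.le
    have h3 : 0 < α ^ B * (1 + y) := mul_pos hB0 (by linarith only [y1])
    have h4 : α ^ A * (-0.0021) ≤ α ^ A * x := mul_le_mul_of_nonneg_left x1 hA0.le
    have h5 : α ^ C * z ≤ α ^ C * 0.0021 := mul_le_mul_of_nonneg_left z2 hC0.le
    linarith only [heq, h1, h2, h3, h4, h5, hC0]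
  -- `C ≤ A + 1`
  have hAC2 : α ^ C * 0.9979 ≤ α ^ A * 2.0042 := by
    have h4 : α ^ A * x ≤ α ^ A * 0.0021 := mul_le_mul_of_nonneg_left x2 hA0.le
    have h5 : α ^ C * (-0.0021) ≤ α ^ C * z := mul_le_mul_of_nonneg_left z1 hC0.le
    linarith only [heq, hxy, h4, h5]
  rcases (show A = C ∨ C = A + 1 ∨ A + 2 ≤ C by omega) with h1 | h1 | h1
  · -- the two largest terms have the same leading part
    have hACeq : a * p = c * r := by rw [← hA, ← hC]; exact h1
    rcases lt_trichotomy a c with h2 | h2 | h2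
    · obtain ⟨m, hm⟩ : ∃ m, c = a + m := ⟨c - a, by omega⟩
      have hsε : 1 / α ^ (2 * a) ≤ ε := by
        rw [hε]
        exact one_div_le_one_div_of_le hS0 (pow_le_pow_right₀ hα1.le (by omega))
      refine case1 h (s := a) (m := m) (P₁ := p) (P₂ := r) (A := A) (B := B) (g := y) (τ := -1)
        (ε := ε) (by omega) (by omega) hr2 (by rw [hACeq, hm]) hp hε0 hL5 hsε (Or.inr rfl) gy ?_
      rw [← hm, hx', hz']
      rw [← h1] at heq
      linarith only [heq]
    · -- equal indices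
      rw [h2] at hACeq
      have hc0 : 0 < c := by omega
      have hpr : p = r := Nat.eq_of_mul_eq_mul_left hc0 hACeq
      have hxz : x = z := by rw [hx, hz, h2, hpr]
      rw [← h1, hxz] at heq
      have h3 : 0 < α ^ B * (1 + y) := mul_pos hB0 (by linarith only [y1])
      linarith only [heq, h3]
    · obtain ⟨m, hm⟩ : ∃ m, a = c + m := ⟨a - c, by omega⟩
      have hsε : 1 / α ^ (2 * c) ≤ ε := by
        rw [hε]
        exact one_div_le_one_div_of_le hS0 (pow_le_pow_right₀ hα1.le (by omega))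
      refine case1 h (s := c) (m := m) (P₁ := r) (P₂ := p) (A := A) (B := B) (g := y) (τ := 1)
        (ε := ε) (by omega) (by omega) hp2 (by rw [← hACeq, hm]) hr hε0 hL5 hsε (Or.inl rfl) gy ?_
      rw [← hm, hx', hz']
      rw [← h1] at heq
      linarith only [heq]
  · -- the golden ratio
    have hα2 : α ≤ 2.01 := by
      rw [h1, pow_succ] at hAC2
      have h3 : α ^ A * (α * 0.9979) ≤ α ^ A * 2.0042 := by linarith only [hAC2]
      have := le_of_mul_le_mul_left h3 hA0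
      linarith only [this]
    have hPQ : Q = -1 ∧ P = 1 := by
      have hsq := h.sq
      rcases h.cases with ⟨h3, h4⟩ | ⟨h3, h4⟩
      · exfalso
        have h5 : (3 : ℝ) ≤ P := by exact_mod_cast h4
        rw [h3] at hsq
        push_cast at hsq
        nlinarith only [hsq, h5, hα2, hα1]
      · refine ⟨h3, ?_⟩
        by_contra hne
        have h6 : 2 ≤ P := by omega
        have h5 : (2 : ℝ) ≤ P := by exact_mod_cast h6
        rw [h3] at hsq
        push_cast at hsq
        nlinarith only [hsq, h5, hα2, hα1]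
    have hφ : α ^ 2 = α + 1 := by
      have hsq := h.sq
      rw [hPQ.1, hPQ.2] at hsq
      push_cast at hsq
      linarith only [hsq]
    have hδ : β / α = -1 / α ^ 2 := by
      rw [h.beta, hPQ.1]
      push_cast
      rw [div_div, ← pow_two]
    have hlo : 1.618 ≤ α := hge
    have hhi : α ≤ 1.6181 := by
      by_contra hc; push Not at hc; nlinarith only [hc, hφ]
    -- `B + 1 = A`
    have hmain : α ^ B * α * (1 + y) = α ^ A * (1 + (α ^ 2 * z - α * x)) := by
      rw [h1, pow_succ] at heq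
      linear_combination α * heq + α ^ A * hφ
    have herr1 : |α ^ 2 * z - α * x| ≤ 0.01 := by
      have e1 : |α ^ 2 * z| ≤ 2.6181 * 0.0021 := by
        rw [abs_mul, abs_of_pos (by positivity : (0 : ℝ) < α ^ 2)]
        exact mul_le_mul (by linarith only [hφ, hhi]) (gz.trans hG) (abs_nonneg _) (by norm_num)
      have e2 : |α * x| ≤ 1.6181 * 0.0021 := by
        rw [abs_mul, abs_of_pos hα0]
        exact mul_le_mul hhi (gx.trans hG) (abs_nonneg _) (by norm_num)
      calc |α ^ 2 * z - α * x| ≤ |α ^ 2 * z| + |α * x| := abs_sub _ _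
        _ ≤ 0.01 := by linarith only [e1, e2]
    obtain ⟨w1, w2⟩ := abs_le.1 herr1
    have hBA : B + 1 = A := by
      rcases lt_trichotomy (B + 1) A with h3 | h3 | h3
      · exfalso
        have h4 : α ^ B * α * α ≤ α ^ A := by
          rw [← pow_succ, ← pow_succ]; exact pow_le_pow_right₀ hα1.le (by omega)
        have h5 : 0 < α ^ B * α := by positivity
        have h6 : α ^ B * α * 1.618 ≤ α ^ B * α * α := mul_le_mul_of_nonneg_left hlo h5.le
        have h7 : α ^ B * α * y ≤ α ^ B * α * 0.0021 := mul_le_mul_of_nonneg_left y2 h5.le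
        have h8 : α ^ A * (-0.01) ≤ α ^ A * (α ^ 2 * z - α * x) :=
          mul_le_mul_of_nonneg_left w1 hA0.le
        linarith only [hmain, h4, h6, h7, h8, h5, hA0]
      · exact h3
      · exfalso
        have h4 : α ^ A * α ≤ α ^ B * α := by
          apply mul_le_mul_of_nonneg_right _ hα0.le
          exact pow_le_pow_right₀ hα1.le (by omega)
        have h5 : 0 < α ^ B * α := by positivity
        have h6 : α ^ A * 1.618 ≤ α ^ A * α := mul_le_mul_of_nonneg_left hlo hA0.le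
        have h7 : α ^ B * α * (-0.0021) ≤ α ^ B * α * y := mul_le_mul_of_nonneg_left y1 h5.le
        have h8 : α ^ A * (α ^ 2 * z - α * x) ≤ α ^ A * 0.01 :=
          mul_le_mul_of_nonneg_left w2 hA0.le
        linarith only [hmain, h4, h6, h7, h8, h5, hA0]
    refine case2 hα1 hφ (a := a) (b := b) (c := c) (p := p) (q := q) (r := r) (s := s) (L := L) hδ
      hp2 hq2 hr2 hp hq hr hsa hsb hsc hs hS ?_ ?_ ?_
    · rw [← hA, ← hB]; exact hBA.symm
    · rw [← hC, ← hB]; omega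
    · rw [hx', hy', hz']
      have hC2 : C = B + 2 := by omega
      have hA1 : A = B + 1 := by omega
      have e1 : α ^ C = α ^ B * α ^ 2 := by rw [hC2, pow_add]
      have e2 : α ^ A = α ^ B * α := by rw [hA1, pow_succ]
      rw [e1, e2] at heq
      have : α ^ B * (α ^ 2 * (1 + z)) = α ^ B * (α * (1 + x) + (1 + y)) := by
        linear_combination (-1) * heq
      exact mul_left_cancel₀ hB0.ne' this
  · -- impossible
    exfalso
    have h2 : α ^ A * α ^ 2 ≤ α ^ C := by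
      rw [← pow_add]; exact pow_le_pow_right₀ hα1.le h1
    have h3 : α ^ A * 2.618 ≤ α ^ A * α ^ 2 := mul_le_mul_of_nonneg_left h.sq_ge' hA0.le
    linarith only [hAC2, h2, h3, hA0]

end Pool.Agent.Run7.h804.LV
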