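import Mathlib
import Pool.Agent.Run7.h804.LV.Core
import Pool.Agent.R477.FC.Exp
import Pool.Agent.R477.FC.Fam

/-!
# The Fermat-Catalan equation with three bases from one companion Lucas sequence
-/

set_option autoImplicit false

namespace Pool.Agent.Run7.h804.LV

/-- the companion Lucas sequence `V_n(P, Q)` -/
def V (P Q : ℤ) : ℕ → ℤ
  | 0 => 2
  | 1 => P
  | (n + 2) => P * V P Q (n + 1) - Q * V P Q n

lemma V_eq {α β : ℝ} {P Q : ℤ} (h : QU α β P Q) (n : ℕ) : (V P Q n : ℝ) = α ^ n + β ^ n := by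
  induction n using Nat.strong_induction_on with
  | _ n ih =>
    rcases n with _ | _ | n
    · simp [V]; norm_num
    · simp [V, h.sum]
    · have h1 := ih (n + 1) (by omega)
      have h2 := ih n (by omega)
      have h3 := h.sq
      have h4 : β ^ 2 = P * β - Q := by linear_combination β * h.sum - h.prod
      rw [V]
      push_cast
      rw [h1, h2]
      have e1 : α ^ (n + 1 + 1) = α ^ n * α ^ 2 := by ring
      have e2 : β ^ (n + 1 + 1) = β ^ n * β ^ 2 := by ring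
      rw [e1, e2, h3, h4]
      ring

lemma exists_QU {P Q : ℤ} (hP : 0 < P) (hQ : Q = 1 ∨ Q = -1) (hD : 4 * Q < P ^ 2) :
    ∃ α β : ℝ, QU α β P Q := by
  have hD' : (0 : ℝ) < (P : ℝ) ^ 2 - 4 * Q := by
    have : (4 * Q : ℝ) < (P : ℝ) ^ 2 := by exact_mod_cast hD
    linarith
  set R : ℝ := Real.sqrt ((P : ℝ) ^ 2 - 4 * Q) with hR
  have hR2 : R ^ 2 = (P : ℝ) ^ 2 - 4 * Q := Real.sq_sqrt hD'.le
  have hR0 : 0 < R := Real.sqrt_pos.2 hD'
  refine ⟨(P + R) / 2, (P - R) / 2, ?_, by ring, ?_, hQ⟩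
  · have hP1 : (1 : ℝ) ≤ P := by exact_mod_cast hP
    rcases hQ with h | h
    · have h3 : 3 ≤ P := by
        rw [h] at hD
        by_contra hc
        push Not at hc
        interval_cases P <;> omega
      have h4 : (3 : ℝ) ≤ P := by exact_mod_cast h3
      linarith
    · rw [h] at hR2
      push_cast at hR2
      by_contra hc
      push Not at hc
      nlinarith
  · linear_combination (-1 / 4 : ℝ) * hR2

lemma QU.V_pos {α β : ℝ} {P Q : ℤ} (h : QU α β P Q) (n : ℕ) : 0 < V P Q n := by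
  have h1 : (0 : ℝ) < V P Q n := by
    rw [V_eq h]
    rcases Nat.eq_zero_or_pos n with rfl | hn
    · norm_num
    · have h2 : |β ^ n| < 1 := by
        rw [abs_pow]; exact pow_lt_one₀ (abs_nonneg _) h.absb_lt (by omega)
      have h3 : 1 ≤ α ^ n := one_le_pow₀ h.one.le
      have := (abs_lt.1 h2).1
      linarith
  exact_mod_cast h1

lemma QU.V_le {α β : ℝ} {P Q : ℤ} (h : QU α β P Q) (n : ℕ) : (V P Q n : ℝ) ≤ 2 * α ^ n := by
  rw [V_eq h]
  have h2 : |β ^ n| ≤ 1 := by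
    rw [abs_pow]; exact pow_le_one₀ (abs_nonneg _) h.absb_lt.le
  have h3 : 1 ≤ α ^ n := one_le_pow₀ h.one.le
  have := (abs_le.1 h2).2
  linarith

open Pool.Agent.R477.FC in
/-- the value triples of the solutions whose bases are terms of one companion Lucas sequence -/
def Triples (κ : ℕ) : Set (ℕ × ℕ × ℕ) :=
  {v | ∃ (P Q : ℤ) (a b c x y z p q r : ℕ), 0 < P ∧ (Q = 1 ∨ Q = -1) ∧ 4 * Q < P ^ 2 ∧
    (x : ℤ) = V P Q a ∧ (y : ℤ) = V P Q b ∧ (z : ℤ) = V P Q c ∧ Nat.Coprime x y ∧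
    Nat.Coprime x z ∧ Nat.Coprime y z ∧ 2 ≤ p ∧ 2 ≤ q ∧ 2 ≤ r ∧ x ^ p + y ^ q = z ^ r ∧
    v = (x ^ p, y ^ q, z ^ r) ∧
    Real.log (max x (max y z) : ℕ) ^ κ ≤ (min x (min y z) : ℕ)}

open Pool.Agent.R477.FC in
theorem main : ∃ κ : ℕ, (Triples κ).Finite := by
  obtain ⟨C₀, κ, hC₀⟩ := exps
  refine ⟨3 * κ + 1, ?_⟩
  -- the bound for `N`
  obtain ⟨N₀, hN₀⟩ : ∃ N₀ : ℕ, ∀ N : ℕ, N₀ ≤ N →
      65 ≤ Real.log N ∧ 240 * (((C₀ : ℝ) + 1) * 5 ^ κ) ^ 5 ≤ Real.log N := by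
    have h1 : Filter.Tendsto (fun n : ℕ => Real.log (n : ℝ)) Filter.atTop Filter.atTop :=
      Real.tendsto_log_atTop.comp tendsto_natCast_atTop_atTop
    have h2 := h1.eventually_ge_atTop (max 65 (240 * (((C₀ : ℝ) + 1) * 5 ^ κ) ^ 5))
    obtain ⟨w₁, hw₁⟩ := Filter.eventually_atTop.1 h2
    exact ⟨w₁, fun w hw => ⟨(le_max_left _ _).trans (hw₁ w hw), (le_max_right _ _).trans (hw₁ w hw)⟩⟩
  obtain ⟨W, hW⟩ := vals_fin N₀
  refine ((Set.finite_Iic W).prod ((Set.finite_Iic W).prod (Set.finite_Iic W))).subset ?_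
  rintro v ⟨P, Q, a, b, c, x, y, z, p, q, r, hP, hQ, hD, hx, hy, hz, hxy, hxz, hyz, hp2, hq2, hr2,
    heq, rfl, hmin⟩
  obtain ⟨α, β, h⟩ := exists_QU hP hQ hD
  have hx0 : 0 < x := by
    have := h.V_pos a; omega
  have hy0 : 0 < y := by
    have := h.V_pos b; omega
  have hz0 : 0 < z := by
    have := h.V_pos c; omega
  have hs : SSol x y z p q r 1 1 (-1) := ⟨hx0, hy0, hz0, hxy, hxz, hyz, hp2, hq2, hr2, Or.inl rfl,
    Or.inl rfl, Or.inr rfl, by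
      have : (x : ℤ) ^ p + (y : ℤ) ^ q = (z : ℤ) ^ r := by exact_mod_cast heq
      linarith⟩
  obtain ⟨N, hN⟩ : ∃ N : ℕ, N = max x (max y z) := ⟨_, rfl⟩
  rw [← hN] at hmin
  have hxN : x ≤ N := hN ▸ le_max_left _ _
  have hyN : y ≤ N := hN ▸ (le_max_left _ _).trans (le_max_right _ _)
  have hzN : z ≤ N := hN ▸ (le_max_right _ _).trans (le_max_right _ _)
  rcases Nat.lt_or_ge N N₀ with hw | hw
  · obtain ⟨v1, v2, v3⟩ := hW x y z p q r 1 1 (-1) hs (by omega) (by omega) (by omega)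
    simp only [Set.mem_prod, Set.mem_Iic]
    exact ⟨v1, v2, v3⟩
  exfalso
  obtain ⟨hl65, hlC⟩ := hN₀ N hw
  set l : ℝ := Real.log N with hl
  have hl0 : 0 < l := by linarith
  have hl1 : 1 ≤ l := by linarith
  -- all bases are large
  have hlow : ∀ u : ℕ, min x (min y z) ≤ u → l ^ (3 * κ + 1) ≤ (u : ℝ) := fun u hu =>
    hmin.trans (by exact_mod_cast hu)
  have hlk1 : 65 ≤ l ^ (3 * κ + 1) := hl65.trans (le_self_pow₀ hl1 (by omega))
  have hxl := hlow x (min_le_left _ _)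
  have hyl := hlow y ((min_le_right _ _).trans (min_le_left _ _))
  have hzl := hlow z ((min_le_right _ _).trans (min_le_right _ _))
  have two : ∀ u : ℕ, l ^ (3 * κ + 1) ≤ (u : ℝ) → 2 ≤ u := by
    intro u hu
    have : (2 : ℝ) ≤ u := by linarith
    exact_mod_cast this
  have hx2 := two x hxl
  have hy2 := two y hyl
  have hz2 := two z hzl
  -- the exponents
  obtain ⟨s', hs'⟩ : ∃ s, s = Nat.log 2 N + 2 := ⟨_, rfl⟩
  have hNs : N ≤ 2 ^ s' := by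
    have h1 : N < 2 ^ (Nat.log 2 N + 1) := Nat.lt_pow_succ_log_self (by norm_num) _
    rw [hs']
    exact h1.le.trans (Nat.pow_le_pow_right (by norm_num) (by omega))
  have hN2 : 2 ≤ N := hx2.trans hxN
  have hs5 : (s' : ℝ) ≤ 5 * l := by
    have g3 : (2 : ℝ) ^ (Nat.log 2 N) ≤ N := by
      exact_mod_cast Nat.pow_log_le_self 2 (by omega)
    have g4 := Real.log_le_log (by positivity) g3
    rw [Real.log_pow] at g4
    have hlog2 : (0.6931471803 : ℝ) < Real.log 2 := Real.log_two_gt_d9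
    have hl' : (0 : ℝ) ≤ (Nat.log 2 N : ℝ) := by positivity
    rw [hs']
    push_cast
    nlinarith
  obtain ⟨d1, d2, d3⟩ := hC₀ s' (by omega) x y z p q r 1 1 (-1) hs (hxN.trans hNs) (hyN.trans hNs)
    (hzN.trans hNs)
  have h1 := d1 hx2
  have h2 := d2 hy2
  have h3 := d3 hz2
  obtain ⟨L, hL⟩ : ∃ L : ℕ, L = C₀ * s' ^ κ := ⟨_, rfl⟩
  rw [← hL] at h1 h2 h3
  have hLl : (L : ℝ) ≤ ((C₀ : ℝ) + 1) * 5 ^ κ * l ^ κ := by
    have h6 : (s' : ℝ) ^ κ ≤ (5 * l) ^ κ := pow_le_pow_left₀ (by positivity) hs5 κ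
    have h7 : (L : ℝ) = C₀ * (s' : ℝ) ^ κ := by rw [hL]; push_cast; ring
    rw [h7]
    calc (C₀ : ℝ) * (s' : ℝ) ^ κ ≤ ((C₀ : ℝ) + 1) * (5 * l) ^ κ := by
          apply mul_le_mul (by linarith) h6 (by positivity) (by positivity)
      _ = _ := by rw [mul_pow]; ring
  -- the smallest index
  obtain ⟨s, hsdef⟩ : ∃ s, s = min a (min b c) := ⟨_, rfl⟩
  have hsa : s ≤ a := hsdef ▸ min_le_left _ _
  have hsb : s ≤ b := hsdef ▸ (min_le_right _ _).trans (min_le_left _ _)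
  have hsc : s ≤ c := hsdef ▸ (min_le_right _ _).trans (min_le_right _ _)
  have hsor : s = a ∨ s = b ∨ s = c := by omega
  have hxR : (x : ℝ) = α ^ a + β ^ a := by
    rw [← V_eq h]; exact_mod_cast hx
  have hyR : (y : ℝ) = α ^ b + β ^ b := by
    rw [← V_eq h]; exact_mod_cast hy
  have hzR : (z : ℝ) = α ^ c + β ^ c := by
    rw [← V_eq h]; exact_mod_cast hz
  have hVs : l ^ (3 * κ + 1) ≤ 2 * α ^ s := by
    have h8 := h.V_le s
    rw [V_eq h] at h8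
    refine le_trans ?_ h8
    rcases hsor with h9 | h9 | h9
    · rw [h9, ← hxR]; exact hxl
    · rw [h9, ← hyR]; exact hyl
    · rw [h9, ← hzR]; exact hzl
  have hS : 60 * (L : ℝ) ^ 5 ≤ α ^ (2 * s) := by
    have hL0 : (0 : ℝ) ≤ L := by positivity
    have g1 : (L : ℝ) ^ 5 ≤ (((C₀ : ℝ) + 1) * 5 ^ κ * l ^ κ) ^ 5 := pow_le_pow_left₀ hL0 hLl 5
    have g2 : (l ^ (3 * κ + 1)) ^ 2 ≤ (2 * α ^ s) ^ 2 := pow_le_pow_left₀ (by positivity) hVs 2
    have g3 : (((C₀ : ℝ) + 1) * 5 ^ κ * l ^ κ) ^ 5 =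
        (((C₀ : ℝ) + 1) * 5 ^ κ) ^ 5 * l ^ (5 * κ) := by
      rw [mul_pow, ← pow_mul, mul_comm κ 5]
    have g4 : (l ^ (3 * κ + 1)) ^ 2 = l ^ (5 * κ) * l * l ^ (κ + 1) := by
      rw [← pow_mul, ← pow_succ, ← pow_add]; congr 1; ring
    have g5 : 1 ≤ l ^ (κ + 1) := one_le_pow₀ hl1
    have g6 : l ^ (5 * κ) * l ≤ (l ^ (3 * κ + 1)) ^ 2 := by
      rw [g4]; exact le_mul_of_one_le_right (by positivity) g5
    have g7 : 240 * ((((C₀ : ℝ) + 1) * 5 ^ κ) ^ 5 * l ^ (5 * κ)) ≤ l ^ (5 * κ) * l := by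
      have := mul_le_mul_of_nonneg_left hlC (by positivity : 0 ≤ l ^ (5 * κ))
      linarith
    have g8 : (2 * α ^ s) ^ 2 = 4 * α ^ (2 * s) := by
      rw [mul_pow, ← pow_mul, mul_comm s 2]; norm_num
    rw [g8] at g2
    rw [g3] at g1
    linarith
  have heq' : (α ^ a + β ^ a) ^ p + (α ^ b + β ^ b) ^ q = (α ^ c + β ^ c) ^ r := by
    rw [← hxR, ← hyR, ← hzR]; exact_mod_cast heq
  have hpL : (p : ℝ) ≤ L := by exact_mod_cast h1
  have hqL : (q : ℝ) ≤ L := by exact_mod_cast h2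
  have hrL : (r : ℝ) ≤ L := by exact_mod_cast h3
  rcases le_total ((α ^ b + β ^ b) ^ q) ((α ^ a + β ^ a) ^ p) with h9 | h9
  · exact core h hp2 hq2 hr2 hpL hqL hrL hsa hsb hsc hsor hS heq' h9
  · exact core h hq2 hp2 hr2 hqL hpL hrL hsb hsa hsc (by tauto) hS (by rw [add_comm]; exact heq') h9

end Pool.Agent.Run7.h804.LV
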